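import Pool.Agent.H64.KO.Cox
import Pool.Agent.H64.KO.Shell

set_option autoImplicit false
set_option linter.unusedSectionVars false

/-!
# Shellability of the intervals `[e, c]_k` of the `k`-intermediate orders

For every Coxeter system with finitely many simple reflections, every Coxeter element `c` and every
`k`, the order complex of the interval `[e, c]_k` is shellable. The elements of the interval are the
products of the subwords of `c` that can be reached from `c` by deleting letters one at a time,
where a letter may be deleted if the corresponding reflection is short enough. A letter that may be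
deleted stays so after further deletions, and deleting a letter does not change the reflections of
the earlier letters: this makes the lexicographic order of the deletion words a shelling.
-/

namespace Pool.Agent.Results.MP_20db89_co.IntermediateOrder

open CoxeterSystem Pool.Agent.Helper741 Pool.Agent.H64.KO

section defs

variable {B W : Type} [Group W] {M : CoxeterMatrix B} (cs : CoxeterSystem M W)

/-- The strict Bruhat order of a Coxeter system. -/
def BruhatLT (u v : W) : Prop :=
  Relation.TransGen (fun a b => cs.IsReflection (b * a⁻¹) ∧ cs.length a < cs.length b) u v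

/-- The `k`-intermediate order: `v` is obtained from `u` by a finite (possibly empty) sequence of
left multiplications by reflections `t` with `(ℓ(t) - 1) / 2 ≤ k`, each of which goes up in the
Bruhat order. -/
def KLE (k : ℕ) (u v : W) : Prop :=
  Relation.ReflTransGen
    (fun a b => ∃ t, cs.IsReflection t ∧ (cs.length t - 1) / 2 ≤ k ∧ b = t * a ∧ BruhatLT cs a b)
    u v

/-- `c` is a Coxeter element: the product of a list of the simple reflections in which every one of
them occurs exactly once. -/
def IsCoxeterElement (c : W) : Prop :=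
  ∃ ω : List B, ω.Nodup ∧ (∀ b, b ∈ ω) ∧ c = cs.wordProd ω

end defs

section main

variable {B : Type} [Fintype B] [LinearOrder B] {M : CoxeterMatrix B}
variable {W : Type} [Group W] (cs : CoxeterSystem M W)

theorem BruhatLT_length {u v : W} (h : BruhatLT cs u v) : cs.length u < cs.length v := by
  induction h with
  | single h => exact h.2
  | tail _ h2 ih => exact ih.trans h2.2

variable (ω : List B)

/-- The product of the letters in `J`. -/
def wj (J : Finset B) : W := cs.wordProd (ω.filter (· ∈ J))

/-- The letters of `J` before `j`. -/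
def pre (J : Finset B) (j : B) : List B := (ω.takeWhile (· ≠ j)).filter (· ∈ J)

/-- The letter `j` of `J` may be deleted. -/
def qq (k : ℕ) (J : Finset B) (j : B) : Prop := (cs.length (tt cs j (pre ω J j)) - 1) / 2 ≤ k

variable {ω}

theorem takeWhile_eq {A C : List B} {j : B} (h : j ∉ A) :
    (A ++ j :: C).takeWhile (· ≠ j) = A := by
  induction A with
  | nil => simp
  | cons a A ih =>
    rw [List.mem_cons, not_or] at h
    rw [List.cons_append, List.takeWhile_cons_of_pos (by simpa using Ne.symm h.1), ih h.2]

theorem split_at (hn : ω.Nodup) {j : B} (hj : j ∈ ω) :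
    ∃ A C, ω = A ++ j :: C ∧ j ∉ A ∧ j ∉ C ∧ ω.takeWhile (· ≠ j) = A := by
  obtain ⟨A, C, h⟩ := List.append_of_mem hj
  rw [h] at hn
  have h1 : j ∉ A := fun h2 => List.disjoint_of_nodup_append hn h2 (by simp)
  have h2 : j ∉ C := (List.nodup_cons.1 (List.nodup_append.1 hn).2.1).1
  exact ⟨A, C, h, h1, h2, by rw [h]; exact takeWhile_eq h1⟩

theorem filter_erase {l : List B} {j : B} (h : j ∉ l) (J : Finset B) :
    l.filter (· ∈ J.erase j) = l.filter (· ∈ J) := by
  apply List.filter_congr
  intro x hx
  have : x ≠ j := by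
    rintro rfl
    exact h hx
  simp [this]

theorem tt_mul (hn : ω.Nodup) (ha : ∀ b, b ∈ ω) {J : Finset B} {j : B} (hj : j ∈ J) :
    tt cs j (pre ω J j) * wj cs ω J = wj cs ω (J.erase j) := by
  obtain ⟨A, C, h1, h2, h3, h4⟩ := split_at hn (ha j)
  unfold pre wj tt
  rw [h4, h1, List.filter_append, List.filter_append, filter_erase h2,
    List.filter_cons_of_pos (by simpa using hj), List.filter_cons_of_neg (by simp),
    filter_erase h3, cs.wordProd_append, cs.wordProd_append, cs.wordProd_cons]
  have e : ∀ a b c : W, b * b = 1 → a * b * a⁻¹ * (a * (b * c)) = a * c := by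
    intro a b c hb
    calc a * b * a⁻¹ * (a * (b * c)) = a * (b * b) * c := by group
      _ = a * c := by rw [hb, mul_one]
  exact e _ _ _ (cs.simple_mul_simple_self j)

theorem lis_filter (hn : ω.Nodup) {J : Finset B} {t : W}
    (h : t ∈ cs.leftInvSeq (ω.filter (· ∈ J))) : ∃ j ∈ J, t = tt cs j (pre ω J j) := by
  obtain ⟨s, j, r, e1, e2⟩ := mem_lis cs h
  obtain ⟨l₁, l₂, f1, f2, f3⟩ := List.filter_eq_append_iff.1 e1
  obtain ⟨l₃, l₄, f4, f5, f6, f7⟩ := List.filter_eq_cons_iff.1 f3
  refine ⟨j, by simpa using f6, ?_⟩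
  have g1 : ω = (l₁ ++ l₃) ++ j :: l₄ := by
    rw [f1, f4, List.append_assoc]
  have g2 : j ∉ l₁ ++ l₃ := by
    rw [g1] at hn
    exact fun h2 => List.disjoint_of_nodup_append hn h2 (by simp)
  have g3 : l₃.filter (· ∈ J) = [] := by
    rw [List.filter_eq_nil_iff]
    exact f5
  rw [e2]
  unfold tt pre
  rw [g1, takeWhile_eq g2, List.filter_append, f2, g3, List.append_nil]

theorem len_wj (hn : ω.Nodup) (ha : ∀ b, b ∈ ω) (J : Finset B) :
    cs.length (wj cs ω J) = J.card := by
  unfold wj
  rw [len_nodup cs (hn.filter _), ← List.toFinset_card_of_nodup (hn.filter _)]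
  congr 1
  ext x
  simp [ha x]

theorem wj_inj (hn : ω.Nodup) (ha : ∀ b, b ∈ ω) : Function.Injective (wj cs ω) := by
  intro I J h
  ext b
  exact filter_inj cs I J ω hn h b (ha b)

theorem step_iff (hn : ω.Nodup) (ha : ∀ b, b ∈ ω) (k : ℕ) (a : W) (J : Finset B) :
    (∃ t, cs.IsReflection t ∧ (cs.length t - 1) / 2 ≤ k ∧ wj cs ω J = t * a ∧
      BruhatLT cs a (wj cs ω J)) ↔ ∃ J', a = wj cs ω J' ∧ RS (qq cs ω k) J J' := by
  constructor
  · rintro ⟨t, ht, hk, hb, hlt⟩
    have ea : a = t * wj cs ω J := by rw [hb, ← mul_assoc, ht.mul_self, one_mul]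
    have h1 := BruhatLT_length cs hlt
    rw [ea] at h1
    obtain ⟨j, hj, rfl⟩ := lis_filter cs hn (strong cs ht _ h1)
    rw [tt_mul cs hn ha hj] at ea
    exact ⟨_, ea, j, hj, hk, rfl⟩
  · rintro ⟨J', rfl, j, hj, hk, rfl⟩
    have e := tt_mul cs hn ha hj
    have hr := tt_refl cs j (pre ω J j)
    have e2 : wj cs ω J = tt cs j (pre ω J j) * wj cs ω (J.erase j) := by
      rw [← e, ← mul_assoc, hr.mul_self, one_mul]
    refine ⟨_, hr, hk, e2, Relation.TransGen.single ⟨?_, ?_⟩⟩
    · rw [e2, mul_inv_cancel_right]
      exact hr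
    · rw [len_wj cs hn ha, len_wj cs hn ha]
      exact Finset.card_erase_lt_of_mem hj

theorem KLE_iff (hn : ω.Nodup) (ha : ∀ b, b ∈ ω) (k : ℕ) (a : W) (J : Finset B) :
    KLE cs k a (wj cs ω J) ↔ ∃ J', a = wj cs ω J' ∧ R (qq cs ω k) J J' := by
  constructor
  · intro h
    unfold KLE at h
    induction h using Relation.ReflTransGen.head_induction_on with
    | refl => exact ⟨J, rfl, Relation.ReflTransGen.refl⟩
    | head h1 _ ih =>
      obtain ⟨J', rfl, hJ'⟩ := ih
      obtain ⟨J'', h2, h3⟩ := (step_iff cs hn ha k _ J').1 h1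
      exact ⟨J'', h2, Relation.ReflTransGen.tail hJ' h3⟩
  · rintro ⟨J', rfl, h⟩
    unfold KLE
    induction h with
    | refl => exact Relation.ReflTransGen.refl
    | tail _ h2 ih => exact Relation.ReflTransGen.head ((step_iff cs hn ha k _ _).2 ⟨_, rfl, h2⟩) ih

theorem qq_mono (hn : ω.Nodup) (k : ℕ) (J' J : Finset B) (j : B) (h : J' ⊆ J)
    (hq : qq cs ω k J j) : qq cs ω k J' j := by
  unfold qq at hq ⊢
  have h1 : (pre ω J' j).Sublist (pre ω J j) := by
    unfold pre
    apply List.monotone_filter_right
    intro x hx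
    have : x ∈ J' := by simpa using hx
    simpa using h this
  have hA : (ω.takeWhile (· ≠ j)).Nodup := hn.sublist (List.takeWhile_sublist _)
  have hj : j ∉ pre ω J j := by
    intro h2
    have h3 := List.mem_takeWhile_imp (List.mem_of_mem_filter h2)
    simp at h3
  have h2 := tt_mono cs j h1 (hA.filter _) hj
  omega

theorem reach (hn : ω.Nodup) (ha : ∀ b, b ∈ ω) (k : ℕ) :
    ∀ n (J : Finset B), J.card = n → R (qq cs ω k) J ∅ := by
  intro n
  induction n with
  | zero =>
    intro J hJ
    rw [Finset.card_eq_zero.1 hJ]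
    exact Relation.ReflTransGen.refl
  | succ n ih =>
    intro J hJ
    obtain ⟨b, hb⟩ : J.Nonempty := by
      rw [← Finset.card_pos, hJ]
      omega
    have hne : ω.filter (· ∈ J) ≠ [] := by
      intro h
      have : b ∈ ω.filter (· ∈ J) := List.mem_filter.2 ⟨ha b, by simpa using hb⟩
      rw [h] at this
      exact absurd this List.not_mem_nil
    obtain ⟨j, r, hjr⟩ := List.exists_cons_of_ne_nil hne
    obtain ⟨l₁, l₂, f1, f2, f3, _⟩ := List.filter_eq_cons_iff.1 hjr
    have hj : j ∈ J := by simpa using f3
    have g2 : j ∉ l₁ := by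
      have hn' := hn
      rw [f1] at hn'
      exact fun h2 => List.disjoint_of_nodup_append hn' h2 (by simp)
    have hpre : pre ω J j = [] := by
      unfold pre
      rw [f1, takeWhile_eq g2, List.filter_eq_nil_iff]
      exact f2
    refine Relation.ReflTransGen.head ⟨j, hj, ?_, rfl⟩ (ih _ ?_)
    · unfold qq
      rw [hpre]
      unfold tt
      rw [cs.wordProd_nil, one_mul, inv_one, mul_one, cs.length_simple]
      omega
    · rw [Finset.card_erase_of_mem hj, hJ]
      rfl

theorem main (k : ℕ) (hn : ω.Nodup) (ha : ∀ b, b ∈ ω)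
    (hord : ∀ (A C : List B) (a b : B), ω = A ++ b :: C → a ∈ A → ¬ b < a) :
    Shellable {u | KLE cs k 1 u ∧ KLE cs k u (cs.wordProd ω)} (KLE cs k) := by
  have hu : wj cs ω Finset.univ = cs.wordProd ω := by
    unfold wj
    congr 1
    simp
  have he : wj cs ω ∅ = 1 := by
    unfold wj
    simp
  have hle : ∀ J J', KLE cs k (wj cs ω J) (wj cs ω J') ↔ R (qq cs ω k) J' J := by
    intro J J'
    rw [KLE_iff cs hn ha]
    constructor
    · rintro ⟨J'', h1, h2⟩
      rw [wj_inj cs hn ha h1]
      exact h2
    · intro h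
      exact ⟨J, rfl, h⟩
  refine shell (q := qq cs ω k) (w := wj cs ω) (wj_inj cs hn ha) _ _ ?_ hle ?_ ?_ ?_
  · intro x
    change (KLE cs k 1 x ∧ KLE cs k x (cs.wordProd ω)) ↔ _
    rw [← hu, ← he]
    constructor
    · rintro ⟨h1, h2⟩
      obtain ⟨J, rfl, hJ⟩ := (KLE_iff cs hn ha k x Finset.univ).1 h2
      exact ⟨J, rfl, hJ, (hle _ _).1 h1⟩
    · rintro ⟨J, rfl, h1, h2⟩
      exact ⟨(hle _ _).2 h2, (hle _ _).2 h1⟩
  · intro J' J j h _ hq
    exact qq_mono cs hn k J' J j h hq
  · intro J a b hab haJ hbJ hq
    obtain ⟨A, C, h1, h2, h3, h4⟩ := split_at hn (ha b)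
    have haA : a ∉ A := fun h5 => hord A C a b h1 h5 hab
    have e : pre ω (J.erase a) b = pre ω J b := by
      unfold pre
      rw [h4]
      exact filter_erase haA J
    unfold qq at hq ⊢
    rwa [e] at hq
  · exact reach cs hn ha k _ _ rfl

end main

/-- For every Coxeter system with a finite set of simple reflections, every Coxeter element `c` and
every `k`, the order complex of the interval `[e, c]_k` of the `k`-intermediate order is
shellable. -/
theorem result {B W : Type} [Finite B] [Group W] {M : CoxeterMatrix B} (cs : CoxeterSystem M W)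
    (c : W) (hc : IsCoxeterElement cs c) (k : ℕ) :
    Shellable {u | KLE cs k 1 u ∧ KLE cs k u c} (KLE cs k) := by
  obtain ⟨ω, hn, ha, rfl⟩ := hc
  have hF : Fintype B := Fintype.ofFinite B
  have key : ∃ lo : LinearOrder B, ∀ (A C : List B) (a b : B), ω = A ++ b :: C → a ∈ A →
      ¬ b < a := by
    classical
    refine ⟨LinearOrder.lift' (fun b => ω.idxOf b) ?_, ?_⟩
    · intro a b h
      exact (List.idxOf_inj (ha a)).1 h
    · intro A C a b h1 h5 hab
      have hab' : ω.idxOf b < ω.idxOf a := hab
      have h2 : b ∉ A := by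
        rw [h1] at hn
        exact fun h2 => List.disjoint_of_nodup_append hn h2 (by simp)
      have e1 : ω.idxOf b = A.length := by
        rw [h1, List.idxOf_append_of_notMem h2]
        simp
      have e2 : ω.idxOf a < A.length := by
        rw [h1, List.idxOf_append_of_mem h5]
        exact List.idxOf_lt_length_iff.2 h5
      omega
  obtain ⟨lo, hord⟩ := key
  exact main cs k hn ha hord

end Pool.Agent.Results.MP_20db89_co.IntermediateOrder
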